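import Pool.Agent.Q131.Perc.Merge

/-!
The base strips with two or three rows, and all strips.
-/

set_option autoImplicit false

namespace Pool.Agent.Q131.Perc

/-- patterns `1 1 0 1 1 0 ... 1 1` on `0, ..., l - 1` -/
structure Pattern (l : ℤ) (P : Finset ℤ) : Prop where
  sub : ∀ x ∈ P, 0 ≤ x ∧ x ≤ l - 1
  first : 0 ∈ P
  last : l - 1 ∈ P
  gap : ∀ x, 0 ≤ x → x + 1 ≤ l - 1 → x ∈ P ∨ x + 1 ∈ P
  three : ∀ x ∈ P, x - 1 ∉ P ∨ x + 1 ∉ P

theorem exists_pattern (l : ℕ) (hl : 1 ≤ l) :
    ∃ P : Finset ℤ, Pattern l P ∧ 2 * l ≤ 3 * P.card := by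
  induction l using Nat.strong_induction_on with
  | _ l ih =>
    rcases Nat.lt_or_ge 3 l with h | h
    · obtain ⟨P, hP, hc⟩ := ih (l - 3) (by omega) (by omega)
      have e : ((l - 3 : ℕ) : ℤ) = (l : ℤ) - 3 := by omega
      rw [e] at hP
      have n1 : (l : ℤ) - 2 ∉ P := fun h' => by have := hP.sub _ h'; omega
      have n2 : (l : ℤ) - 1 ∉ P := fun h' => by have := hP.sub _ h'; omega
      have n3 : (l : ℤ) - 3 ∉ P := fun h' => by have := hP.sub _ h'; omega
      refine ⟨insert ((l : ℤ) - 1) (insert ((l : ℤ) - 2) P), ⟨?_, ?_, ?_, ?_, ?_⟩, ?_⟩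
      · intro x hx
        rcases Finset.mem_insert.mp hx with rfl | hx
        · omega
        rcases Finset.mem_insert.mp hx with rfl | hx
        · omega
        have := hP.sub _ hx
        omega
      · exact Finset.mem_insert_of_mem (Finset.mem_insert_of_mem hP.first)
      · exact Finset.mem_insert_self _ _
      · intro x h1 h2
        simp only [Finset.mem_insert]
        by_cases h3 : x + 1 ≤ (l : ℤ) - 3 - 1
        · rcases hP.gap x h1 h3 with h4 | h4
          · left; right; right; exact h4
          · right; right; right; exact h4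
        · have h4 : x = l - 4 ∨ x = l - 3 ∨ x = l - 2 := by omega
          rcases h4 with rfl | rfl | rfl
          · left; right; right
            have := hP.last
            have e' : (l : ℤ) - 3 - 1 = l - 4 := by ring
            rwa [e'] at this
          · right; right; left; ring
          · left; right; left; rfl
      · intro x hx
        simp only [Finset.mem_insert, not_or]
        rcases Finset.mem_insert.mp hx with rfl | hx
        · right
          refine ⟨by omega, by omega, fun h' => ?_⟩
          have := hP.sub _ h'; omega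
        rcases Finset.mem_insert.mp hx with rfl | hx
        · left
          refine ⟨by omega, by omega, fun h' => ?_⟩
          have := hP.sub _ h'; omega
        have h5 := hP.sub _ hx
        rcases hP.three x hx with h4 | h4
        · left
          exact ⟨by omega, by omega, h4⟩
        · right
          exact ⟨by omega, by omega, h4⟩
      · rw [Finset.card_insert_of_notMem, Finset.card_insert_of_notMem n1]
        · omega
        · simp only [Finset.mem_insert, not_or]
          exact ⟨by omega, n2⟩
    · have hl' : l = 1 ∨ l = 2 ∨ l = 3 := by omega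
      rcases hl' with rfl | rfl | rfl
      · refine ⟨{0}, ⟨?_, ?_, ?_, ?_, ?_⟩, by simp⟩
        · intro x hx; simp at hx; subst hx; simp
        · simp
        · simp
        · intro x h1 h2; simp; omega
        · intro x hx; simp at hx; subst hx; simp
      · refine ⟨{0, 1}, ⟨?_, ?_, ?_, ?_, ?_⟩, by simp⟩
        · intro x hx; simp at hx; rcases hx with rfl | rfl <;> simp
        · simp
        · simp
        · intro x h1 h2; simp; push_cast at h2; omega
        · intro x hx; simp at hx; rcases hx with rfl | rfl <;> simp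
      · refine ⟨{0, 2}, ⟨?_, ?_, ?_, ?_, ?_⟩, by simp⟩
        · intro x hx; simp at hx; rcases hx with rfl | rfl <;> simp
        · simp
        · simp
        · intro x h1 h2; simp; push_cast at h2; omega
        · intro x hx; simp at hx; rcases hx with rfl | rfl <;> simp

/-- The strip with `δ + 1` rows, `δ = 1` or `2`. -/
theorem base {δ l : ℤ} (hδ : δ = 1 ∨ δ = 2) (hl : δ ≤ l) {P : Finset ℤ} (hP : Pattern l P) :
    ∃ A, TL (δ + 1) (l + 2 - δ) A ∧ A.card = P.card + 1 := by
  classical
  let f : ℤ → ℤ × ℤ := fun x => (0, x)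
  have hf : Function.Injective f := by
    intro a b h
    simpa [f] using h
  let A : Finset (ℤ × ℤ) := insert (δ, l + 1 - δ) (P.image f)
  have hA : ∀ v, v ∈ A ↔ v = (δ, l + 1 - δ) ∨ ∃ x ∈ P, f x = v := by
    intro v
    simp only [A, Finset.mem_insert, Finset.mem_image]
  refine ⟨A, ⟨?_, ?_, ?_⟩, ?_⟩
  · rintro ⟨v1, v2⟩ hv
    rw [mem_Rect]
    rcases (hA _).mp hv with e | ⟨x, hx, e⟩
    · simp only [Prod.mk.injEq] at e
      omega
    · have := hP.sub x hx
      simp only [f, Prod.mk.injEq] at e
      omega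
  · intro S hS hAS
    have p1 : ∀ x ∈ P, ((0 : ℤ), x) ∈ S := fun x hx => hAS _ ((hA _).mpr (Or.inr ⟨x, hx, rfl⟩))
    have g0 : (δ, l + 1 - δ) ∈ S := hAS _ ((hA _).mpr (Or.inl rfl))
    have row0 : ∀ x, 0 ≤ x → x ≤ l - 1 → ((0 : ℤ), x) ∈ S := by
      intro x h1 h2
      by_cases hx : x ∈ P
      · exact p1 x hx
      · have h3 : 0 < x := by
          rcases eq_or_lt_of_le h1 with e | e
          · exact absurd (e ▸ hP.first) hx
          · exact e
        have h4 : x < l - 1 := by
          rcases eq_or_lt_of_le h2 with e | e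
          · exact absurd (e ▸ hP.last) hx
          · exact e
        have h5 : x - 1 ∈ P := by
          rcases hP.gap (x - 1) (by omega) (by omega) with h | h
          · exact h
          · have e : x - 1 + 1 = x := by ring
            rw [e] at h
            exact absurd h hx
        have h6 : x + 1 ∈ P := by
          rcases hP.gap x (by omega) (by omega) with h | h
          · exact absurd h hx
          · exact h
        exact hS (0, x - 1) (0, x) (0, x + 1) (by simp [Adj]) (by simp [Adj]) (by simp; omega)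
          (p1 _ h5) (p1 _ h6)
    rcases hδ with rfl | rfl
    · -- two rows
      have e1 : l + 1 - 1 = l := by ring
      rw [e1] at g0
      have c0 : ((0 : ℤ), l) ∈ S :=
        hS (1, l) (0, l) (0, l - 1) (by simp [Adj]) (by simp [Adj]) (by simp) g0
          (row0 _ (by omega) le_rfl)
      have row0' : ∀ x, 0 ≤ x → x ≤ l → ((0 : ℤ), x) ∈ S := by
        intro x h1 h2
        rcases eq_or_lt_of_le h2 with e | e
        · rw [e]; exact c0
        · exact row0 x h1 (by omega)
      have row1 : ∀ x, 0 ≤ x → x ≤ l → ((0 : ℤ) + 1, x) ∈ S :=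
        row_above hS (by omega) le_rfl row0' (by simpa using g0)
      rintro ⟨x, y⟩ hv
      rw [mem_Rect] at hv
      have hx : x = 0 ∨ x = 1 := by omega
      rcases hx with rfl | rfl
      · exact row0' y (by omega) (by omega)
      · simpa using row1 y (by omega) (by omega)
    · -- three rows
      have e1 : l + 1 - 2 = l - 1 := by ring
      rw [e1] at g0
      have c1 : ((1 : ℤ), l - 1) ∈ S :=
        hS (2, l - 1) (1, l - 1) (0, l - 1) (by simp [Adj]) (by simp [Adj]) (by simp) g0
          (row0 _ (by omega) le_rfl)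
      have row1 : ∀ x, 0 ≤ x → x ≤ l - 1 → ((0 : ℤ) + 1, x) ∈ S :=
        row_above hS (by omega) le_rfl row0 (by simpa using c1)
      have row2 : ∀ x, 0 ≤ x → x ≤ l - 1 → ((1 : ℤ) + 1, x) ∈ S :=
        row_above hS (r := l - 1) (by omega) le_rfl (by simpa using row1) (by simpa using g0)
      rintro ⟨x, y⟩ hv
      rw [mem_Rect] at hv
      have hx : x = 0 ∨ x = 1 ∨ x = 2 := by omega
      rcases hx with rfl | rfl | rfl
      · exact row0 y (by omega) (by omega)
      · simpa using row1 y (by omega) (by omega)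
      · simpa using row2 y (by omega) (by omega)
  · intro x hx
    rcases (hA _).mp hx with rfl | ⟨u, hu, rfl⟩
    · -- the extra point
      refine ⟨Rect 0 0 0 (l - 1), closed_rect _ _ _ _, ?_, ?_, ?_⟩
      · intro v hv hne
        rcases (hA _).mp hv with rfl | ⟨t, ht, rfl⟩
        · exact absurd rfl hne
        · have := hP.sub t ht
          simp only [f]
          rw [mem_Rect]
          omega
      · rintro ⟨v1, v2⟩ hv
        rw [mem_Rect] at hv ⊢
        omega
      · intro hv
        rw [mem_Rect] at hv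
        omega
    · have hu' := hP.sub u hu
      by_cases hlast : u = l - 1
      · refine ⟨Rect 0 0 0 (l - 2) ∪ Rect δ δ (l + 1 - δ) (l + 1 - δ), ?_, ?_, ?_, ?_⟩
        · refine closed_union (closed_rect _ _ _ _) (closed_rect _ _ _ _) ?_
          rintro ⟨p1, p2⟩ hp ⟨q1, q2⟩ hq
          rw [mem_Rect] at hp hq
          simp only
          rcases abs_cases (p1 - q1) with ⟨e3, _⟩ | ⟨e3, _⟩ <;>
            rcases abs_cases (p2 - q2) with ⟨e4, _⟩ | ⟨e4, _⟩ <;> rw [e3, e4] <;> omega
        · intro v hv hne
          rcases (hA _).mp hv with rfl | ⟨t, ht, rfl⟩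
          · right
            rw [mem_Rect]
            omega
          · left
            have h1 := hP.sub t ht
            have h2 : t ≠ u := fun e => hne (by rw [e])
            simp only [f]
            rw [mem_Rect]
            omega
        · rintro ⟨v1, v2⟩ hv
          rw [mem_Rect]
          rcases hv with hv | hv <;> rw [mem_Rect] at hv <;> omega
        · rintro (hv | hv) <;> rw [mem_Rect] at hv <;> omega
      · have key : ∀ a b : ℤ, a + 3 ≤ b → 1 ≤ b → b ≤ l - 1 → a ≤ l - 1 →
            (∀ t ∈ P, t ≠ u → t ≤ a ∨ b ≤ t) →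
            ∃ S, Closed S ∧ (∀ v ∈ A, v ≠ f u → v ∈ S) ∧ S ⊆ Rect 0 (δ + 1 - 1) 0 (l + 2 - δ - 1) ∧
              (δ + 1 - 1, (0 : ℤ)) ∉ S := by
          intro a b hab hb1 hb ha ht
          refine ⟨Rect 0 0 0 a ∪ Rect 0 δ b (l + 1 - δ), ?_, ?_, ?_, ?_⟩
          · refine closed_union (closed_rect _ _ _ _) (closed_rect _ _ _ _) ?_
            rintro ⟨p1, p2⟩ hp ⟨q1, q2⟩ hq
            rw [mem_Rect] at hp hq
            simp only
            rcases abs_cases (p1 - q1) with ⟨e3, _⟩ | ⟨e3, _⟩ <;>
              rcases abs_cases (p2 - q2) with ⟨e4, _⟩ | ⟨e4, _⟩ <;> rw [e3, e4] <;> omega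
          · intro v hv hne
            rcases (hA _).mp hv with rfl | ⟨t, ht', rfl⟩
            · right
              rw [mem_Rect]
              omega
            · have h1 := hP.sub t ht'
              have h2 : t ≠ u := fun e => hne (by rw [e])
              rcases ht t ht' h2 with h3 | h3
              · left
                simp only [f]
                rw [mem_Rect]
                omega
              · right
                simp only [f]
                rw [mem_Rect]
                omega
          · rintro ⟨v1, v2⟩ hv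
            rw [mem_Rect]
            rcases hv with hv | hv <;> rw [mem_Rect] at hv <;> omega
          · rintro (hv | hv) <;> rw [mem_Rect] at hv <;> omega
        rcases hP.three u hu with h | h
        · refine key (u - 2) (u + 1) (by omega) (by omega) (by omega) (by omega) ?_
          intro t ht hne
          have h1 : t ≠ u - 1 := fun e => h (e ▸ ht)
          omega
        · have h0 : u + 1 ≠ l - 1 := fun e => h (e ▸ hP.last)
          refine key (u - 1) (u + 2) (by omega) (by omega) (by omega) (by omega) ?_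
          intro t ht hne
          have h1 : t ≠ u + 1 := fun e => h (e ▸ ht)
          omega
  · simp only [A]
    rw [Finset.card_insert_of_notMem, Finset.card_image_of_injective _ hf]
    intro h
    obtain ⟨x, -, e⟩ := Finset.mem_image.mp h
    simp only [f, Prod.mk.injEq] at e
    omega

/-- **All strips.** -/
theorem strips (d : ℕ) : ∀ s r w : ℕ, 1 ≤ s → s ≤ 2 ^ d → r ≤ s → 2 * d + 2 ≤ w →
    ∃ A, TL (5 * s - 3 + r) w A ∧ 2 * s * (w - 2 * d) ≤ 3 * A.card := by
  induction d with
  | zero =>
    intro s r w hs hs' hr hw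
    have hs1 : s = 1 := by simp at hs'; omega
    subst hs1
    have hr' : r = 0 ∨ r = 1 := by omega
    rcases hr' with rfl | rfl
    · obtain ⟨P, hP, hc⟩ := exists_pattern (w - 1) (by omega)
      obtain ⟨A, hA, hcA⟩ := base (δ := 1) (l := ((w - 1 : ℕ) : ℤ)) (Or.inl rfl) (by omega) hP
      refine ⟨A, ?_, by omega⟩
      have e1 : (((w - 1 : ℕ) : ℤ)) + 2 - 1 = w := by omega
      have e2 : (1 : ℤ) + 1 = 5 * ((1 : ℕ) : ℤ) - 3 + ((0 : ℕ) : ℤ) := by norm_num
      rw [e1, e2] at hA
      exact hA
    · obtain ⟨P, hP, hc⟩ := exists_pattern w (by omega)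
      obtain ⟨A, hA, hcA⟩ := base (δ := 2) (l := (w : ℤ)) (Or.inr rfl) (by omega) hP
      refine ⟨A, ?_, by omega⟩
      have e1 : (w : ℤ) + 2 - 2 = w := by omega
      have e2 : (2 : ℤ) + 1 = 5 * ((1 : ℕ) : ℤ) - 3 + ((1 : ℕ) : ℤ) := by norm_num
      rw [e1, e2] at hA
      exact hA
  | succ d ih =>
    intro s r w hs hs' hr hw
    rcases Nat.lt_or_ge s 2 with h | h
    · have h1 : 1 ≤ 2 ^ d := Nat.one_le_two_pow
      obtain ⟨A, hA, hc⟩ := ih s r w hs (by omega) hr (by omega)
      refine ⟨A, hA, le_trans ?_ hc⟩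
      exact Nat.mul_le_mul_left _ (by omega)
    · obtain ⟨s1, s2, r1, r2, h1, h2, h3, h4, h5, h6, h7, h8⟩ : ∃ s1 s2 r1 r2 : ℕ, s = s1 + s2 ∧
          r = r1 + r2 ∧ 1 ≤ s1 ∧ 1 ≤ s2 ∧ s1 ≤ 2 ^ d ∧ s2 ≤ 2 ^ d ∧ r1 ≤ s1 ∧ r2 ≤ s2 := by
        rw [pow_succ] at hs'
        refine ⟨s / 2, s - s / 2, min r (s / 2), r - min r (s / 2), ?_⟩
        omega
      obtain ⟨A, hA, hcA⟩ := ih s1 r1 (w - 2) h3 h5 h7 (by omega)
      obtain ⟨B', hB', hcB'⟩ := ih s2 r2 (w - 2) h4 h6 h8 (by omega)
      obtain ⟨B, hB, hcB⟩ := exists_half hB'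
      obtain ⟨C, hC, hcC⟩ := merge (by omega) (by omega) (by omega) hA hB
      refine ⟨C, ?_, ?_⟩
      · have e1 : (((w - 2 : ℕ) : ℤ)) + 2 = w := by omega
        have e2 : 5 * (s1 : ℤ) - 3 + r1 + (5 * (s2 : ℤ) - 3 + r2) + 3 = 5 * s - 3 + r := by
          rw [h1, h2]; push_cast; ring
        rw [e1, e2] at hC
        exact hC
      · rw [hcC, hcB]
        have e3 : w - 2 - 2 * d = w - 2 * (d + 1) := by omega
        rw [e3] at hcA hcB'
        rw [h1]
        generalize w - 2 * (d + 1) = m at *
        nlinarith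

end Pool.Agent.Q131.Perc
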