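import Mathlib

/-!
Closed sets of the 2-neighbour bootstrap rule in `ℤ × ℤ` and corner avoiding sets.
-/

set_option autoImplicit false

namespace Pool.Agent.Q131.Perc

/-- adjacency in the square lattice -/
def Adj (u v : ℤ × ℤ) : Prop :=
  (u.1 = v.1 ∧ (u.2 + 1 = v.2 ∨ v.2 + 1 = u.2)) ∨ (u.2 = v.2 ∧ (u.1 + 1 = v.1 ∨ v.1 + 1 = u.1))

/-- closed under the 2-neighbour rule -/
def Closed (S : Set (ℤ × ℤ)) : Prop :=
  ∀ u v w : ℤ × ℤ, Adj u v → Adj w v → u ≠ w → u ∈ S → w ∈ S → v ∈ S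

/-- rows `a..b`, columns `c..d` -/
def Rect (a b c d : ℤ) : Set (ℤ × ℤ) := {v | a ≤ v.1 ∧ v.1 ≤ b ∧ c ≤ v.2 ∧ v.2 ≤ d}

theorem mem_Rect {a b c d x y : ℤ} : (x, y) ∈ Rect a b c d ↔ a ≤ x ∧ x ≤ b ∧ c ≤ y ∧ y ≤ d :=
  Iff.rfl

/-- distance at least `3` -/
def Far (S T : Set (ℤ × ℤ)) : Prop :=
  ∀ u ∈ S, ∀ v ∈ T, 3 ≤ |u.1 - v.1| + |u.2 - v.2|

theorem closed_rect (a b c d : ℤ) : Closed (Rect a b c d) := by
  rintro ⟨u1, u2⟩ ⟨v1, v2⟩ ⟨w1, w2⟩ h1 h2 hne ⟨a1, a2, a3, a4⟩ ⟨b1, b2, b3, b4⟩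
  simp only [Adj, ne_eq, Prod.mk.injEq] at *
  rw [mem_Rect]
  omega

theorem closed_union {S T : Set (ℤ × ℤ)} (hS : Closed S) (hT : Closed T) (h : Far S T) :
    Closed (S ∪ T) := by
  rintro ⟨u1, u2⟩ ⟨v1, v2⟩ ⟨w1, w2⟩ h1 h2 hne hu hw
  have key : ∀ p ∈ S, ∀ q ∈ T, Adj p (v1, v2) → Adj q (v1, v2) → False := by
    rintro ⟨p1, p2⟩ hp ⟨q1, q2⟩ hq e1 e2
    have := h _ hp _ hq
    simp only [Adj] at e1 e2 this
    rcases abs_cases (p1 - q1) with ⟨e3, _⟩ | ⟨e3, _⟩ <;>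
      rcases abs_cases (p2 - q2) with ⟨e4, _⟩ | ⟨e4, _⟩ <;> rw [e3, e4] at this <;> omega
  rcases hu with hu | hu <;> rcases hw with hw | hw
  · exact Or.inl (hS _ _ _ h1 h2 hne hu hw)
  · exact (key _ hu _ hw h1 h2).elim
  · exact (key _ hw _ hu h2 h1).elim
  · exact Or.inr (hT _ _ _ h1 h2 hne hu hw)

/-- an isometry of the lattice: translation or rotation by a half turn -/
structure Iso where
  f : ℤ × ℤ → ℤ × ℤ
  g : ℤ × ℤ → ℤ × ℤ
  left : ∀ v, g (f v) = v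
  right : ∀ v, f (g v) = v
  adj : ∀ u v, Adj u v → Adj (f u) (f v)

theorem Iso.closed (e : Iso) {S : Set (ℤ × ℤ)} (hS : Closed S) : Closed {v | e.f v ∈ S} := by
  intro u v w h1 h2 hne hu hw
  refine hS _ _ _ (e.adj _ _ h1) (e.adj _ _ h2) ?_ hu hw
  intro h
  apply hne
  rw [← e.left u, ← e.left w, h]

/-- translation -/
def trans (r c : ℤ) : Iso where
  f v := (v.1 - r, v.2 - c)
  g v := (v.1 + r, v.2 + c)
  left v := by simp
  right v := by simp
  adj u v h := by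
    simp only [Adj] at *
    omega

/-- half turn of the rectangle with `h` rows and `w` columns -/
def half (h w : ℤ) : Iso where
  f v := (h - 1 - v.1, w - 1 - v.2)
  g v := (h - 1 - v.1, w - 1 - v.2)
  left v := by simp
  right v := by simp
  adj u v h := by
    simp only [Adj] at *
    omega

/-- `A` spans the rectangle with `h` rows and `w` columns, and for each point `x` of `A` there is a
closed set which contains the other points but not the corner `k`. -/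
structure Block (h w : ℤ) (k : ℤ × ℤ) (A : Finset (ℤ × ℤ)) : Prop where
  sub : ∀ v ∈ A, v ∈ Rect 0 (h - 1) 0 (w - 1)
  span : ∀ S, Closed S → (∀ v ∈ A, v ∈ S) → Rect 0 (h - 1) 0 (w - 1) ⊆ S
  crit : ∀ x ∈ A, ∃ S, Closed S ∧ (∀ v ∈ A, v ≠ x → v ∈ S) ∧ S ⊆ Rect 0 (h - 1) 0 (w - 1) ∧ k ∉ S

/-- top left corner avoided -/
abbrev TL (h w : ℤ) (A : Finset (ℤ × ℤ)) : Prop := Block h w (h - 1, 0) A

/-- bottom right corner avoided -/
abbrev BR (h w : ℤ) (A : Finset (ℤ × ℤ)) : Prop := Block h w (0, w - 1) A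

theorem exists_half {h w : ℤ} {A : Finset (ℤ × ℤ)} (hA : TL h w A) :
    ∃ B, BR h w B ∧ B.card = A.card := by
  classical
  have hinj : Function.Injective (half h w).f := fun u v h' => by
    rw [← (half h w).left u, ← (half h w).left v, h']
  have hfr : ∀ v : ℤ × ℤ, (half h w).f v ∈ Rect 0 (h - 1) 0 (w - 1) ↔ v ∈ Rect 0 (h - 1) 0 (w - 1) := by
    rintro ⟨v1, v2⟩
    show (h - 1 - v1, w - 1 - v2) ∈ _ ↔ _
    rw [mem_Rect, mem_Rect]
    omega
  have hff : ∀ v : ℤ × ℤ, (half h w).f ((half h w).f v) = v := fun v => (half h w).left v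
  refine ⟨A.image (half h w).f, ⟨?_, ?_, ?_⟩, Finset.card_image_of_injective _ hinj⟩
  · intro v hv
    obtain ⟨u, hu, rfl⟩ := Finset.mem_image.mp hv
    exact (hfr u).mpr (hA.sub u hu)
  · intro S hS hAS v hv
    have h1 := hA.span {v | (half h w).f v ∈ S} ((half h w).closed hS)
      (fun u hu => hAS _ (Finset.mem_image_of_mem _ hu))
    have h2 := h1 ((hfr v).mpr hv)
    simp only [Set.mem_setOf_eq] at h2
    rwa [hff] at h2
  · intro x hx
    obtain ⟨u, hu, rfl⟩ := Finset.mem_image.mp hx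
    obtain ⟨S, h1, h2, h3, h4⟩ := hA.crit u hu
    refine ⟨{v | (half h w).f v ∈ S}, (half h w).closed h1, ?_, ?_, ?_⟩
    · intro v hv hne
      obtain ⟨t, ht, rfl⟩ := Finset.mem_image.mp hv
      show (half h w).f ((half h w).f t) ∈ S
      rw [hff]
      exact h2 t ht fun e => hne (by rw [e])
    · intro v hv
      exact (hfr v).mp (h3 hv)
    · intro hk
      apply h4
      have : (half h w).f (0, w - 1) = (h - 1, 0) := by
        simp [half]
      rwa [Set.mem_setOf_eq, this] at hk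

end Pool.Agent.Q131.Perc
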