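import Pool.Agent.Q131.Perc.Basic

/-!
Merging two corner avoiding sets.
-/

set_option autoImplicit false

namespace Pool.Agent.Q131.Perc

/-- growth along a line `L` next to a line `M` contained in `S` -/
theorem line {S : Set (ℤ × ℤ)} (hS : Closed S) (L M : ℤ → ℤ × ℤ)
    (h1 : ∀ t, Adj (L t) (L (t + 1))) (h1' : ∀ t, Adj (L (t + 1)) (L t)) (h2 : ∀ t, Adj (M t) (L t))
    (h3 : ∀ t s, L t ≠ M s) {a b r : ℤ} (har : a ≤ r) (hrb : r ≤ b) (hM : ∀ t, a ≤ t → t ≤ b → M t ∈ S)
    (hr : L r ∈ S) : ∀ t, a ≤ t → t ≤ b → L t ∈ S := by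
  have up : ∀ k : ℕ, r + k ≤ b → L (r + k) ∈ S := by
    intro k
    induction k with
    | zero => intro _; simpa using hr
    | succ k ih =>
      intro hk
      push_cast at hk ⊢
      have h4 := ih (by omega)
      have h5 := hM (r + k + 1) (by omega) (by omega)
      have h6 := hS _ _ _ (h1 (r + k)) (h2 (r + k + 1)) (h3 _ _) h4 h5
      rwa [add_assoc] at h6
  have down : ∀ k : ℕ, a ≤ r - k → L (r - k) ∈ S := by
    intro k
    induction k with
    | zero => intro _; simpa using hr
    | succ k ih =>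
      intro hk
      push_cast at hk ⊢
      have h4 := ih (by omega)
      have h5 := hM (r - (k + 1)) (by omega) (by omega)
      have h6 := h1' (r - (k + 1))
      have h7 : r - ((k : ℤ) + 1) + 1 = r - k := by ring
      rw [h7] at h6
      exact hS _ _ _ h6 (h2 (r - (k + 1))) (h3 _ _) h4 h5
  intro t ht1 ht2
  rcases le_total r t with h | h
  · have := up (t - r).toNat (by omega)
    have e : r + ((t - r).toNat : ℤ) = t := by omega
    rwa [e] at this
  · have := down (r - t).toNat (by omega)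
    have e : r - ((r - t).toNat : ℤ) = t := by omega
    rwa [e] at this

theorem row_above {S : Set (ℤ × ℤ)} (hS : Closed S) {x a b r : ℤ} (har : a ≤ r) (hrb : r ≤ b)
    (hM : ∀ t, a ≤ t → t ≤ b → (x, t) ∈ S) (hr : (x + 1, r) ∈ S) :
    ∀ t, a ≤ t → t ≤ b → (x + 1, t) ∈ S := by
  refine line hS (fun t => (x + 1, t)) (fun t => (x, t)) ?_ ?_ ?_ ?_ har hrb hM hr <;>
    intro t <;> simp [Adj]

theorem row_below {S : Set (ℤ × ℤ)} (hS : Closed S) {x a b r : ℤ} (har : a ≤ r) (hrb : r ≤ b)
    (hM : ∀ t, a ≤ t → t ≤ b → (x, t) ∈ S) (hr : (x - 1, r) ∈ S) :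
    ∀ t, a ≤ t → t ≤ b → (x - 1, t) ∈ S := by
  refine line hS (fun t => (x - 1, t)) (fun t => (x, t)) ?_ ?_ ?_ ?_ har hrb hM hr <;>
    intro t <;> simp [Adj]

theorem col_right {S : Set (ℤ × ℤ)} (hS : Closed S) {x a b r : ℤ} (har : a ≤ r) (hrb : r ≤ b)
    (hM : ∀ t, a ≤ t → t ≤ b → (t, x) ∈ S) (hr : (r, x + 1) ∈ S) :
    ∀ t, a ≤ t → t ≤ b → (t, x + 1) ∈ S := by
  refine line hS (fun t => (t, x + 1)) (fun t => (t, x)) ?_ ?_ ?_ ?_ har hrb hM hr <;>
    intro t <;> simp [Adj]

theorem col_left {S : Set (ℤ × ℤ)} (hS : Closed S) {x a b r : ℤ} (har : a ≤ r) (hrb : r ≤ b)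
    (hM : ∀ t, a ≤ t → t ≤ b → (t, x) ∈ S) (hr : (r, x - 1) ∈ S) :
    ∀ t, a ≤ t → t ≤ b → (t, x - 1) ∈ S := by
  refine line hS (fun t => (t, x - 1)) (fun t => (t, x)) ?_ ?_ ?_ ?_ har hrb hM hr <;>
    intro t <;> simp [Adj]

/-- translates of the points of `A` -/
theorem shift_span {h w : ℤ} {k : ℤ × ℤ} {A : Finset (ℤ × ℤ)} (hA : Block h w k A) (r c : ℤ)
    {S : Set (ℤ × ℤ)} (hS : Closed S) (h1 : ∀ v ∈ A, (v.1 + r, v.2 + c) ∈ S) :
    ∀ x y, r ≤ x → x ≤ h - 1 + r → c ≤ y → y ≤ w - 1 + c → (x, y) ∈ S := by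
  have hS' : Closed {v : ℤ × ℤ | (v.1 + r, v.2 + c) ∈ S} := by
    have := (trans (-r) (-c)).closed hS
    simpa [trans] using this
  have h2 := hA.span _ hS' h1
  intro x y h3 h4 h5 h6
  have h7 := h2 (show (x - r, y - c) ∈ Rect 0 (h - 1) 0 (w - 1) from by rw [mem_Rect]; omega)
  simpa using h7

theorem shift_crit {h w : ℤ} {k : ℤ × ℤ} {A : Finset (ℤ × ℤ)} (hA : Block h w k A) (r c : ℤ)
    {x : ℤ × ℤ} (hx : x ∈ A) : ∃ S, Closed S ∧ (∀ v ∈ A, v ≠ x → (v.1 + r, v.2 + c) ∈ S) ∧
      (∀ v ∈ S, r ≤ v.1 ∧ v.1 ≤ h - 1 + r ∧ c ≤ v.2 ∧ v.2 ≤ w - 1 + c) ∧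
      (k.1 + r, k.2 + c) ∉ S := by
  obtain ⟨S, h1, h2, h3, h4⟩ := hA.crit x hx
  refine ⟨{v | (v.1 - r, v.2 - c) ∈ S}, (trans r c).closed h1, ?_, ?_, ?_⟩
  · intro v hv hne
    simpa using h2 v hv hne
  · rintro ⟨v1, v2⟩ hv
    have := h3 hv
    rw [mem_Rect] at this
    simp only
    omega
  · simpa using h4

/-- **Merging.** -/
theorem merge {h₁ h₂ w : ℤ} {A B : Finset (ℤ × ℤ)} (hh₁ : 1 ≤ h₁) (hh₂ : 1 ≤ h₂) (hw : 1 ≤ w)
    (hA : TL h₁ w A) (hB : BR h₂ w B) :
    ∃ C, TL (h₁ + h₂ + 3) (w + 2) C ∧ C.card = A.card + B.card + 2 := by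
  classical
  let f : ℤ × ℤ → ℤ × ℤ := fun v => (v.1, v.2 + 1)
  let g : ℤ × ℤ → ℤ × ℤ := fun v => (v.1 + (h₁ + 3), v.2 + 1)
  have hf : Function.Injective f := by
    rintro ⟨a, b⟩ ⟨c, d⟩ h
    simp only [f, Prod.mk.injEq] at h ⊢
    omega
  have hg : Function.Injective g := by
    rintro ⟨a, b⟩ ⟨c, d⟩ h
    simp only [g, Prod.mk.injEq] at h ⊢
    omega
  have fA : ∀ v ∈ A, 0 ≤ v.1 ∧ v.1 ≤ h₁ - 1 ∧ 0 ≤ v.2 ∧ v.2 ≤ w - 1 := fun v hv => hA.sub v hv
  have fB : ∀ v ∈ B, 0 ≤ v.1 ∧ v.1 ≤ h₂ - 1 ∧ 0 ≤ v.2 ∧ v.2 ≤ w - 1 := fun v hv => hB.sub v hv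
  let C : Finset (ℤ × ℤ) := (A.image f ∪ B.image g) ∪ {(h₁, 0), (h₁ + 2, w + 1)}
  have hC : ∀ v, v ∈ C ↔ (∃ u ∈ A, f u = v) ∨ (∃ u ∈ B, g u = v) ∨ v = (h₁, 0) ∨
      v = (h₁ + 2, w + 1) := by
    intro v
    simp only [C, Finset.mem_union, Finset.mem_image, Finset.mem_insert, Finset.mem_singleton]
    rw [or_assoc]
  refine ⟨C, ⟨?_, ?_, ?_⟩, ?_⟩
  · rintro ⟨v1, v2⟩ hv
    rw [mem_Rect]
    rcases (hC _).mp hv with ⟨u, hu, e⟩ | ⟨u, hu, e⟩ | e | e
    · have := fA u hu
      simp only [f, Prod.mk.injEq] at e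
      omega
    · have := fB u hu
      simp only [g, Prod.mk.injEq] at e
      omega
    · simp only [Prod.mk.injEq] at e
      omega
    · simp only [Prod.mk.injEq] at e
      omega
  · intro S hS hCS
    have s1 : ∀ x y, 0 ≤ x → x ≤ h₁ - 1 → 1 ≤ y → y ≤ w → (x, y) ∈ S := by
      have := shift_span hA 0 1 hS (fun v hv => hCS _ ((hC _).mpr (Or.inl ⟨v, hv, by simp [f]⟩)))
      intro x y a1 a2 a3 a4
      exact this x y a1 (by omega) a3 (by omega)
    have s2 : ∀ x y, h₁ + 3 ≤ x → x ≤ h₁ + h₂ + 2 → 1 ≤ y → y ≤ w → (x, y) ∈ S := by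
      have := shift_span hB (h₁ + 3) 1 hS
        (fun v hv => hCS _ ((hC _).mpr (Or.inr (Or.inl ⟨v, hv, by simp [g]⟩))))
      intro x y a1 a2 a3 a4
      exact this x y a1 (by omega) a3 (by omega)
    have y0 : (h₁, (0 : ℤ)) ∈ S := hCS _ ((hC _).mpr (Or.inr (Or.inr (Or.inl rfl))))
    have z0 : (h₁ + 2, w + 1) ∈ S := hCS _ ((hC _).mpr (Or.inr (Or.inr (Or.inr rfl))))
    -- the corner site `(h₁ - 1, 0)`
    have c1 : (h₁ - 1, (0 : ℤ)) ∈ S :=
      hS (h₁, 0) (h₁ - 1, 0) (h₁ - 1, 1) (by simp [Adj]) (by simp [Adj]) (by simp) y0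
        (s1 _ _ (by omega) (by omega) (by omega) (by omega))
    have c2 : (h₁ + 3, w + 1) ∈ S :=
      hS (h₁ + 2, w + 1) (h₁ + 3, w + 1) (h₁ + 3, w) (by simp only [Adj, true_and]; omega)
        (by simp [Adj]) (by simp) z0 (s2 _ _ (by omega) (by omega) (by omega) (by omega))
    -- left column
    have l1 : ∀ t, 0 ≤ t → t ≤ h₁ - 1 → (t, (0 : ℤ)) ∈ S := by
      have := col_left hS (x := 1) (a := 0) (b := h₁ - 1) (r := h₁ - 1) (by omega) le_rfl
        (fun t a1 a2 => s1 _ _ a1 a2 (by omega) (by omega)) (by simpa using c1)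
      simpa using this
    have r1 : ∀ t, h₁ + 3 ≤ t → t ≤ h₁ + h₂ + 2 → (t, w + 1) ∈ S := by
      exact col_right hS (x := w) (a := h₁ + 3) (b := h₁ + h₂ + 2) (r := h₁ + 3) le_rfl (by omega)
        (fun t a1 a2 => s2 _ _ a1 a2 (by omega) (by omega)) c2
    -- row `h₁`
    have m1 : ∀ t, 0 ≤ t → t ≤ w → (h₁, t) ∈ S := by
      have := row_above hS (x := h₁ - 1) (a := 0) (b := w) (r := 0) le_rfl (by omega)
        (fun t a1 a2 => by
          rcases eq_or_lt_of_le a1 with e | e
          · rw [← e]; exact c1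
          · exact s1 _ _ (by omega) (by omega) (by omega) a2) (by simpa using y0)
      simpa using this
    have m2 : ∀ t, 1 ≤ t → t ≤ w + 1 → (h₁ + 2, t) ∈ S := by
      have := row_below hS (x := h₁ + 3) (a := 1) (b := w + 1) (r := w + 1) (by omega) le_rfl
        (fun t a1 a2 => by
          rcases eq_or_lt_of_le a2 with e | e
          · rw [e]; exact c2
          · exact s2 _ _ (by omega) (by omega) (by omega) (by omega))
        (by have : h₁ + 3 - 1 = h₁ + 2 := by ring
            rw [this]; exact z0)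
      have e : h₁ + 3 - 1 = h₁ + 2 := by ring
      rwa [e] at this
    have m3 : ∀ t, 1 ≤ t → t ≤ w → (h₁ + 1, t) ∈ S := by
      intro t a1 a2
      refine hS (h₁, t) (h₁ + 1, t) (h₁ + 2, t) (by simp [Adj]) ?_ ?_ (m1 t (by omega) a2)
        (m2 t a1 (by omega))
      · simp only [Adj, true_and]
        omega
      · simp
    -- the remaining part of the left column
    have l2 : ∀ t, h₁ ≤ t → t ≤ h₁ + h₂ + 2 → (t, (0 : ℤ)) ∈ S := by
      have := col_left hS (x := 1) (a := h₁) (b := h₁ + h₂ + 2) (r := h₁) le_rfl (by omega)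
        (fun t a1 a2 => by
          rcases eq_or_lt_of_le a1 with e | e
          · rw [← e]; exact m1 1 (by omega) hw
          · rcases eq_or_lt_of_le (show h₁ + 1 ≤ t by omega) with e | e
            · rw [← e]; exact m3 1 le_rfl hw
            · rcases eq_or_lt_of_le (show h₁ + 2 ≤ t by omega) with e | e
              · rw [← e]; exact m2 1 le_rfl (by omega)
              · exact s2 _ _ (by omega) a2 le_rfl hw) (by simpa using y0)
      simpa using this
    have r2 : ∀ t, 0 ≤ t → t ≤ h₁ + 2 → (t, w + 1) ∈ S := by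
      exact col_right hS (x := w) (a := 0) (b := h₁ + 2) (r := h₁ + 2) (by omega) le_rfl
        (fun t a1 a2 => by
          rcases eq_or_lt_of_le a2 with e | e
          · rw [e]; exact m2 w hw (by omega)
          · rcases eq_or_lt_of_le (show t ≤ h₁ + 1 by omega) with e | e
            · rw [e]; exact m3 w hw le_rfl
            · rcases eq_or_lt_of_le (show t ≤ h₁ by omega) with e | e
              · rw [e]; exact m1 w (by omega) le_rfl
              · exact s1 _ _ a1 (by omega) hw le_rfl) z0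
    rintro ⟨x, y⟩ hv
    rw [mem_Rect] at hv
    obtain ⟨a1, a2, a3, a4⟩ := hv
    rcases eq_or_lt_of_le a3 with e | e
    · rw [← e]
      rcases le_total h₁ x with h | h
      · exact l2 x h (by omega)
      · rcases eq_or_lt_of_le h with h | h
        · rw [h]; exact y0
        · exact l1 x a1 (by omega)
    rcases eq_or_lt_of_le (show y ≤ w + 1 by omega) with e' | e'
    · rw [e']
      rcases le_total x (h₁ + 2) with h | h
      · exact r2 x a1 h
      · rcases eq_or_lt_of_le h with h | h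
        · rw [← h]; exact z0
        · exact r1 x (by omega) (by omega)
    by_cases b1 : x ≤ h₁ - 1
    · exact s1 _ _ a1 b1 (by omega) (by omega)
    by_cases b2 : x = h₁
    · rw [b2]; exact m1 y (by omega) (by omega)
    by_cases b3 : x = h₁ + 1
    · rw [b3]; exact m3 y (by omega) (by omega)
    by_cases b4 : x = h₁ + 2
    · rw [b4]; exact m2 y (by omega) (by omega)
    exact s2 _ _ (by omega) (by omega) (by omega) (by omega)
  · intro x hx
    rcases (hC _).mp hx with ⟨u, hu, rfl⟩ | ⟨u, hu, rfl⟩ | rfl | rfl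
    · -- a point of the lower block
      obtain ⟨S, h1, h2, h3, h4⟩ := shift_crit hA 0 1 hu
      refine ⟨(S ∪ Rect h₁ h₁ 0 0) ∪ Rect (h₁ + 2) (h₁ + h₂ + 2) 1 (w + 1), ?_, ?_, ?_, ?_⟩
      · refine closed_union (closed_union h1 (closed_rect _ _ _ _) ?_) (closed_rect _ _ _ _) ?_
        · rintro ⟨p1, p2⟩ hp ⟨q1, q2⟩ hq
          have a1 := h3 _ hp
          rw [mem_Rect] at hq
          have a2 : ¬ (p1 = h₁ - 1 ∧ p2 = 1) := by
            rintro ⟨rfl, rfl⟩
            apply h4
            simpa using hp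
          simp only at a1 ⊢
          rcases abs_cases (p1 - q1) with ⟨e3, _⟩ | ⟨e3, _⟩ <;>
            rcases abs_cases (p2 - q2) with ⟨e4, _⟩ | ⟨e4, _⟩ <;> rw [e3, e4] <;> omega
        · rintro ⟨p1, p2⟩ hp ⟨q1, q2⟩ hq
          rw [mem_Rect] at hq
          have a1 : p1 ≤ h₁ - 1 ∨ (p1 = h₁ ∧ p2 = 0) := by
            rcases hp with hp | hp
            · have a1 := h3 _ hp
              simp only at a1
              omega
            · rw [mem_Rect] at hp
              omega
          simp only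
          rcases abs_cases (p1 - q1) with ⟨e3, _⟩ | ⟨e3, _⟩ <;>
            rcases abs_cases (p2 - q2) with ⟨e4, _⟩ | ⟨e4, _⟩ <;> rw [e3, e4] <;> omega
      · intro v hv hne
        rcases (hC _).mp hv with ⟨t, ht, rfl⟩ | ⟨t, ht, rfl⟩ | rfl | rfl
        · left; left
          have := h2 t ht (fun e => hne (by rw [e]))
          simpa [f] using this
        · right
          have := fB t ht
          simp only [g]
          rw [mem_Rect]
          omega
        · left; right
          rw [mem_Rect]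
          omega
        · right
          rw [mem_Rect]
          omega
      · rintro ⟨v1, v2⟩ hv
        rw [mem_Rect]
        rcases hv with (hv | hv) | hv
        · have := h3 _ hv
          simp only at this
          omega
        · rw [mem_Rect] at hv
          omega
        · rw [mem_Rect] at hv
          omega
      · rintro ((hv | hv) | hv)
        · have := h3 _ hv
          simp only at this
          omega
        · rw [mem_Rect] at hv
          omega
        · rw [mem_Rect] at hv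
          omega
    · -- a point of the upper block
      obtain ⟨S, h1, h2, h3, h4⟩ := shift_crit hB (h₁ + 3) 1 hu
      refine ⟨(S ∪ Rect (h₁ + 2) (h₁ + 2) (w + 1) (w + 1)) ∪ Rect 0 h₁ 0 w, ?_, ?_, ?_, ?_⟩
      · refine closed_union (closed_union h1 (closed_rect _ _ _ _) ?_) (closed_rect _ _ _ _) ?_
        · rintro ⟨p1, p2⟩ hp ⟨q1, q2⟩ hq
          have a1 := h3 _ hp
          rw [mem_Rect] at hq
          have a2 : ¬ (p1 = h₁ + 3 ∧ p2 = w) := by
            rintro ⟨rfl, rfl⟩
            apply h4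
            simpa using hp
          simp only at a1 ⊢
          rcases abs_cases (p1 - q1) with ⟨e3, _⟩ | ⟨e3, _⟩ <;>
            rcases abs_cases (p2 - q2) with ⟨e4, _⟩ | ⟨e4, _⟩ <;> rw [e3, e4] <;> omega
        · rintro ⟨p1, p2⟩ hp ⟨q1, q2⟩ hq
          rw [mem_Rect] at hq
          have a1 : h₁ + 3 ≤ p1 ∨ (p1 = h₁ + 2 ∧ p2 = w + 1) := by
            rcases hp with hp | hp
            · have a1 := h3 _ hp
              simp only at a1
              omega
            · rw [mem_Rect] at hp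
              omega
          simp only
          rcases abs_cases (p1 - q1) with ⟨e3, _⟩ | ⟨e3, _⟩ <;>
            rcases abs_cases (p2 - q2) with ⟨e4, _⟩ | ⟨e4, _⟩ <;> rw [e3, e4] <;> omega
      · intro v hv hne
        rcases (hC _).mp hv with ⟨t, ht, rfl⟩ | ⟨t, ht, rfl⟩ | rfl | rfl
        · right
          have := fA t ht
          simp only [f]
          rw [mem_Rect]
          omega
        · left; left
          have := h2 t ht (fun e => hne (by rw [e]))
          simpa [g] using this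
        · right
          rw [mem_Rect]
          omega
        · left; right
          rw [mem_Rect]
          omega
      · rintro ⟨v1, v2⟩ hv
        rw [mem_Rect]
        rcases hv with (hv | hv) | hv
        · have := h3 _ hv
          simp only at this
          omega
        · rw [mem_Rect] at hv
          omega
        · rw [mem_Rect] at hv
          omega
      · rintro ((hv | hv) | hv)
        · have := h3 _ hv
          simp only at this
          omega
        · rw [mem_Rect] at hv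
          omega
        · rw [mem_Rect] at hv
          omega
    · -- the point `(h₁, 0)`
      refine ⟨Rect 0 (h₁ - 1) 1 w ∪ Rect (h₁ + 2) (h₁ + h₂ + 2) 1 (w + 1), ?_, ?_, ?_, ?_⟩
      · refine closed_union (closed_rect _ _ _ _) (closed_rect _ _ _ _) ?_
        rintro ⟨p1, p2⟩ hp ⟨q1, q2⟩ hq
        rw [mem_Rect] at hp hq
        simp only
        rcases abs_cases (p1 - q1) with ⟨e3, _⟩ | ⟨e3, _⟩ <;>
          rcases abs_cases (p2 - q2) with ⟨e4, _⟩ | ⟨e4, _⟩ <;> rw [e3, e4] <;> omega
      · intro v hv hne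
        rcases (hC _).mp hv with ⟨t, ht, rfl⟩ | ⟨t, ht, rfl⟩ | rfl | rfl
        · left
          have := fA t ht
          simp only [f]
          rw [mem_Rect]
          omega
        · right
          have := fB t ht
          simp only [g]
          rw [mem_Rect]
          omega
        · exact absurd rfl hne
        · right
          rw [mem_Rect]
          omega
      · rintro ⟨v1, v2⟩ hv
        rw [mem_Rect]
        rcases hv with hv | hv <;> rw [mem_Rect] at hv <;> omega
      · rintro (hv | hv) <;> rw [mem_Rect] at hv <;> omega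
    · -- the point `(h₁ + 2, w + 1)`
      refine ⟨Rect 0 h₁ 0 w ∪ Rect (h₁ + 3) (h₁ + h₂ + 2) 1 w, ?_, ?_, ?_, ?_⟩
      · refine closed_union (closed_rect _ _ _ _) (closed_rect _ _ _ _) ?_
        rintro ⟨p1, p2⟩ hp ⟨q1, q2⟩ hq
        rw [mem_Rect] at hp hq
        simp only
        rcases abs_cases (p1 - q1) with ⟨e3, _⟩ | ⟨e3, _⟩ <;>
          rcases abs_cases (p2 - q2) with ⟨e4, _⟩ | ⟨e4, _⟩ <;> rw [e3, e4] <;> omega
      · intro v hv hne
        rcases (hC _).mp hv with ⟨t, ht, rfl⟩ | ⟨t, ht, rfl⟩ | rfl | rfl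
        · left
          have := fA t ht
          simp only [f]
          rw [mem_Rect]
          omega
        · right
          have := fB t ht
          simp only [g]
          rw [mem_Rect]
          omega
        · left
          rw [mem_Rect]
          omega
        · exact absurd rfl hne
      · rintro ⟨v1, v2⟩ hv
        rw [mem_Rect]
        rcases hv with hv | hv <;> rw [mem_Rect] at hv <;> omega
      · rintro (hv | hv) <;> rw [mem_Rect] at hv <;> omega
  · have d1 : Disjoint (A.image f) (B.image g) := by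
      rw [Finset.disjoint_left]
      rintro ⟨v1, v2⟩ hv hv'
      obtain ⟨u, hu, e⟩ := Finset.mem_image.mp hv
      obtain ⟨t, ht, e'⟩ := Finset.mem_image.mp hv'
      have a1 := fA u hu
      have a2 := fB t ht
      simp only [f, g, Prod.mk.injEq] at e e'
      omega
    have d2 : Disjoint (A.image f ∪ B.image g) {(h₁, 0), (h₁ + 2, w + 1)} := by
      rw [Finset.disjoint_left]
      rintro ⟨v1, v2⟩ hv hv'
      simp only [Finset.mem_insert, Finset.mem_singleton, Prod.mk.injEq] at hv'
      rcases Finset.mem_union.mp hv with hv | hv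
      · obtain ⟨u, hu, e⟩ := Finset.mem_image.mp hv
        have a1 := fA u hu
        simp only [f, Prod.mk.injEq] at e
        omega
      · obtain ⟨u, hu, e⟩ := Finset.mem_image.mp hv
        have a1 := fB u hu
        simp only [g, Prod.mk.injEq] at e
        omega
    simp only [C]
    rw [Finset.card_union_of_disjoint d2, Finset.card_union_of_disjoint d1,
      Finset.card_image_of_injective _ hf, Finset.card_image_of_injective _ hg,
      Finset.card_pair (by simp)]

end Pool.Agent.Q131.Perc
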